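import Pool.Agent.R409.RI.Sel
import Pool.Agent.R409.RH.Lim

/-!
# Divisibility by `ζ(s)^r` in the Selberg class, read off prime powers

Let `F` be in the Selberg class, `log F(s) = ∑ b(n) n^{-s}`. For a complex number `s₀`, a natural number
`r`, `γ > π/2` and `θ > max(0, 1 - Re s₀)` let

`D(T) = ∑ (b(p^k) - r/k) p^{-k s₀} κ_γ(k log p / T)`, `κ_γ(u) = e^{iγu} / Γ(1 + u)`,

be the finite sum over the prime powers `p^k ≤ exp (exp (θ T))`. We prove that at every point `s₀`, without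
any hypothesis on the zeros of `F` and `ζ`,

`D(T) = c - m (log T - Λ_γ) + O(1/T)`,

`m` the order and `e^c` the leading coefficient of `F / ζ^r` at `s₀`. If `F` has a pole of order `r` at
`s = 1` it follows that `F / ζ^r` is entire if and only if for every `s₀ ≠ 1` there are arbitrarily large
`T` with `Re D(T) ≤ (1/2) log T`.
-/

set_option autoImplicit false

namespace Pool.Agent.Results.MP_995735_nt.PrimePowerCriterion

open Filter Topology

section defs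

/-- `F` is an element of the Selberg class, with coefficients `a(n)` and `log F(s) = ∑ b(n) n^{-s}`. -/
structure IsSelberg (a b : ℕ → ℂ) (F : ℂ → ℂ) : Prop where
  /-- absolute convergence for `Re s > 1` -/
  series : ∀ s : ℂ, 1 < s.re → LSeriesSummable a s ∧ F s = LSeries a s
  /-- `(s - 1)^m F(s)` is entire of finite order -/
  continuation : ∃ (m : ℕ) (E : ℂ → ℂ), Differentiable ℂ E ∧
    (∃ A B : ℝ, ∀ s, ‖E s‖ ≤ A * Real.exp (‖s‖ ^ B)) ∧ ∀ s, s ≠ 1 → E s = (s - 1) ^ m * F s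
  /-- the functional equation -/
  functional : ∃ (Q : ℝ) (k : ℕ) (l : Fin k → ℝ) (μ : Fin k → ℂ) (ω : ℂ), 0 < Q ∧
    (∀ j, 0 < l j ∧ 0 ≤ (μ j).re) ∧ ‖ω‖ = 1 ∧ ∀ s : ℂ, 0 < s.re → s.re < 1 →
      (Q : ℂ) ^ s * (∏ j, Complex.Gamma (l j * s + μ j)) * F s =
        ω * (starRingEnd ℂ) ((Q : ℂ) ^ (1 - (starRingEnd ℂ) s) *
          (∏ j, Complex.Gamma (l j * (1 - (starRingEnd ℂ) s) + μ j)) *
            F (1 - (starRingEnd ℂ) s))
  /-- `a(n) ≪ n^ε` -/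
  ramanujan : ∀ ε : ℝ, 0 < ε → ∃ C : ℝ, ∀ n : ℕ, 1 ≤ n → ‖a n‖ ≤ C * (n : ℝ) ^ ε
  one : a 1 = 1
  /-- `log F(s) = ∑ b(n) n^{-s}` -/
  log : ∀ s : ℂ, 1 < s.re → LSeriesSummable b s ∧ F s = Complex.exp (LSeries b s)
  support : ∀ n, b n ≠ 0 → IsPrimePow n
  bound : ∃ θ C : ℝ, θ < 1 / 2 ∧ ∀ n : ℕ, 1 ≤ n → ‖b n‖ ≤ C * (n : ℝ) ^ θ

/-- `F(s) = ζ(s)^r L(s)` with an entire function `L`. -/
def IsDivisible (F : ℂ → ℂ) (r : ℕ) : Prop :=
  ∃ L : ℂ → ℂ, Differentiable ℂ L ∧ ∀ s, s ≠ 1 → F s = riemannZeta s ^ r * L s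

/-- The weight `κ_γ(u) = e^{iγu} / Γ(1 + u)`. -/
noncomputable def weight (γ u : ℝ) : ℂ :=
  Complex.exp (Complex.I * (γ * u)) / Complex.Gamma (1 + u)

/-- `D(T) = ∑ (b(p^k) - r/k) p^{-k s₀} κ_γ(k log p / T)`, over the `p^k ≤ exp (exp (θ T))`. -/
noncomputable def diffSum (b : ℕ → ℂ) (r : ℕ) (s₀ : ℂ) (γ θ T : ℝ) : ℂ :=
  ∑ᶠ x ∈ {x : Nat.Primes × ℕ | 1 ≤ x.2 ∧ ((x.1 : ℕ) : ℝ) ^ x.2 ≤ Real.exp (Real.exp (θ * T))},
    (b ((x.1 : ℕ) ^ x.2) - r / x.2) * (((x.1 : ℕ) : ℂ) ^ (-s₀)) ^ x.2 *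
      weight γ (x.2 * Real.log (x.1 : ℕ) / T)

/-- `Λ_γ = ∫_0^∞ (e^{-t} - e^{iγt} / Γ(1 + t)) dt / t`. -/
noncomputable def lam (γ : ℝ) : ℂ :=
  ∫ t in Set.Ioi (0 : ℝ), (Real.exp (-t) - weight γ t) / t

/-- The quotient `F / ζ^r`. -/
noncomputable def quot (F : ℂ → ℂ) (r : ℕ) (s : ℂ) : ℂ := F s / riemannZeta s ^ r

end defs

section proofs

open Pool.Agent.R409.RC Pool.Agent.R409.RF Pool.Agent.R409.RG Pool.Agent.R409.RH
open Pool.Agent.R409.RI

theorem weight_eq' {γ u : ℝ} : weight γ u = Pool.Agent.W187.S2.kk γ u :=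
  Pool.Agent.R409.RH.weight_eq

theorem lam_eq' (γ : ℝ) : lam γ = Pool.Agent.W187.UR.Lam γ :=
  Pool.Agent.R409.RH.lam_eq γ

variable {a b : ℕ → ℂ} {F : ℂ → ℂ}

theorem mero_zeta (z : ℂ) : MeromorphicAt riemannZeta z := by
  have h1 := mero_LFunction (1 : DirichletCharacter ℂ 1) z
  rwa [DirichletCharacter.LFunction_modOne_eq] at h1

theorem analytic_zeta {z : ℂ} (hz : z ≠ 1) : AnalyticAt ℂ riemannZeta z := by
  have h2 : DifferentiableOn ℂ riemannZeta {1}ᶜ := fun z hz =>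
    (differentiableAt_riemannZeta hz).differentiableWithinAt
  exact h2.analyticAt (isOpen_compl_singleton.mem_nhds hz)

theorem order_zeta_one : meromorphicOrderAt riemannZeta 1 = ((-1 : ℤ) : WithTop ℤ) := by
  refine (meromorphicOrderAt_eq_int_iff (mero_zeta 1)).2 ⟨riemannZeta₁,
    differentiable_riemannZeta₁.analyticAt 1, by simp, ?_⟩
  filter_upwards [self_mem_nhdsWithin] with s hs
  rw [riemannZeta_eq_inv_sub_mul hs, zpow_neg_one, smul_eq_mul]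

theorem analytic_of (hF : IsSelberg a b F) {z : ℂ} (hz : z ≠ 1) : AnalyticAt ℂ F z := by
  obtain ⟨m, E, hE, -, hEF⟩ := hF.continuation
  have h1 : AnalyticAt ℂ (fun s => E s / (s - 1) ^ m) z := by
    refine (hE.analyticAt z).div (by fun_prop) ?_
    exact pow_ne_zero _ (sub_ne_zero.2 hz)
  refine h1.congr ?_
  filter_upwards [isOpen_compl_singleton.mem_nhds hz] with s hs
  have hs' : s ≠ 1 := hs
  rw [hEF s hs']
  have := pow_ne_zero m (sub_ne_zero.2 hs')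
  field_simp

theorem mero_of (hF : IsSelberg a b F) (z : ℂ) : MeromorphicAt F z := by
  by_cases hz : z = 1
  · subst hz
    obtain ⟨m, E, hE, -, hEF⟩ := hF.continuation
    have h1 : MeromorphicAt (fun s => E s / (s - 1) ^ m) 1 := by
      refine MeromorphicAt.div (hE.analyticAt 1).meromorphicAt ?_
      fun_prop
    refine h1.congr ?_
    filter_upwards [self_mem_nhdsWithin] with s hs
    have hs' : s ≠ 1 := hs
    rw [hEF s hs']
    have := pow_ne_zero m (sub_ne_zero.2 hs')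
    field_simp
  · exact (analytic_of hF hz).meromorphicAt

theorem law_of (hF : IsSelberg a b F) (r : ℕ) (s₀ : ℂ) :
    ∃ (m : ℤ) (c : ℂ), meromorphicOrderAt (quot F r) s₀ = m ∧
      Complex.exp c = meromorphicTrailingCoeffAt (quot F r) s₀ ∧
      ∀ γ θ : ℝ, Real.pi / 2 < γ → 1 - s₀.re < θ → 0 < θ →
        ∃ B T₀ : ℝ, 0 ≤ B ∧ 1 ≤ T₀ ∧ ∀ T : ℝ, T₀ ≤ T →
          ‖diffSum b r s₀ γ θ T - (c - m * (Real.log T - lam γ))‖ ≤ B / T := by
  obtain ⟨m, c, hm, hc, hlaw⟩ := law_quot (mero_of hF) (fun s hs => (hF.log s hs).1)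
    (fun s hs => (hF.log s hs).2) hF.support r s₀
  refine ⟨m, c, hm, hc, fun γ θ hγ hθ hθ0 => ?_⟩
  have h1 := hlaw γ θ hγ hθ hθ0
  rw [← lam_eq'] at h1
  have h2 : (fun T : ℝ => ∑ᶠ x ∈ {x : Nat.Primes × ℕ | 1 ≤ x.2 ∧
      ((x.1 : ℕ) : ℝ) ^ x.2 ≤ Real.exp (Real.exp (θ * T))}, qterm b r s₀ γ T x.1 x.2) =
      diffSum b r s₀ γ θ := by
    funext T
    unfold diffSum qterm
    simp only [weight_eq']
  rw [h2] at h1
  exact h1

theorem order_ne_top (hF : IsSelberg a b F) (r : ℕ) (s₀ : ℂ) :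
    meromorphicOrderAt (quot F r) s₀ ≠ ⊤ := by
  obtain ⟨m, c, hm, -⟩ := law_of hF r s₀
  rw [hm]
  exact WithTop.coe_ne_top

theorem zeta_ev (s₀ : ℂ) : ∀ᶠ z in 𝓝[≠] s₀, riemannZeta z ≠ 0 := by
  refine (meromorphicOrderAt_ne_top_iff_eventually_ne_zero (mero_zeta s₀)).1 ?_
  obtain ⟨m, r₀, hm, -⟩ := law_dir (1 : DirichletCharacter ℂ 1) s₀
  rw [DirichletCharacter.LFunction_modOne_eq] at hm
  rw [hm]
  exact WithTop.coe_ne_top

theorem divisible_iff (hF : IsSelberg a b F) {r : ℕ}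
    (hr : meromorphicOrderAt F 1 = ((-(r : ℤ) : ℤ) : WithTop ℤ)) :
    IsDivisible F r ↔ ∀ s₀ : ℂ, s₀ ≠ 1 → 0 ≤ meromorphicOrderAt (quot F r) s₀ := by
  have hmq : ∀ z, MeromorphicAt (quot F r) z := fun z =>
    (mero_of hF z).div ((mero_zeta z).pow r)
  constructor
  · rintro ⟨L, hL, hFL⟩ s₀ hs₀
    have h1 : quot F r =ᶠ[𝓝[≠] s₀] L := by
      filter_upwards [zeta_ev s₀, mem_nhdsWithin_of_mem_nhds
        (isOpen_compl_singleton.mem_nhds hs₀)] with z hz hz1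
      unfold quot
      rw [hFL z hz1, mul_comm, mul_div_assoc, div_self (pow_ne_zero r hz), mul_one]
    rw [meromorphicOrderAt_congr h1]
    exact (hL.analyticAt s₀).meromorphicOrderAt_nonneg
  · intro h
    have hM : MeromorphicOn (quot F r) Set.univ := fun z _ => hmq z
    set L := toMeromorphicNFOn (quot F r) Set.univ with hL
    have hone : 0 ≤ meromorphicOrderAt (quot F r) 1 := by
      have h1 : quot F r = F / riemannZeta ^ r := by
        funext s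
        rfl
      rw [h1, meromorphicOrderAt_div (mero_of hF 1) ((mero_zeta 1).pow r),
        meromorphicOrderAt_pow (mero_zeta 1), order_zeta_one, hr]
      have h2 : ((r : WithTop ℤ) * ((-1 : ℤ) : WithTop ℤ)) = ((-(r : ℤ) : ℤ) : WithTop ℤ) := by
        have h3 : (r : WithTop ℤ) = (((r : ℤ)) : WithTop ℤ) := rfl
        rw [h3, ← WithTop.coe_mul]
        norm_num
      rw [h2]
      have h4 : (((-(r : ℤ) : ℤ) : WithTop ℤ) - ((-(r : ℤ) : ℤ) : WithTop ℤ)) =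
          ((0 : ℤ) : WithTop ℤ) := by
        rw [← WithTop.LinearOrderedAddCommGroup.coe_sub, sub_self]
      rw [h4]
      exact le_rfl
    have hLan : ∀ z, AnalyticAt ℂ L z := by
      intro z
      have h1 : MeromorphicNFAt L z := meromorphicNFOn_toMeromorphicNFOn _ _ (Set.mem_univ z)
      refine h1.meromorphicOrderAt_nonneg_iff_analyticAt.1 ?_
      rw [hL, meromorphicOrderAt_toMeromorphicNFOn hM (Set.mem_univ z)]
      by_cases hz : z = 1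
      · rw [hz]
        exact hone
      · exact h z hz
    refine ⟨L, fun z => (hLan z).differentiableAt, fun s hs => ?_⟩
    have h1 : F =ᶠ[𝓝[≠] s] fun z => riemannZeta z ^ r * L z := by
      filter_upwards [zeta_ev s, hM.toMeromorphicNFOn_eq_self_on_nhdsNE (Set.mem_univ s)] with z
        hz hz2
      rw [hL, hz2]
      unfold quot
      rw [mul_div_cancel₀]
      exact pow_ne_zero r hz
    have h2 : Tendsto F (𝓝[≠] s) (𝓝 (F s)) :=
      ((analytic_of hF hs).continuousAt.tendsto).mono_left nhdsWithin_le_nhds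
    have h3 : Tendsto (fun z => riemannZeta z ^ r * L z) (𝓝[≠] s) (𝓝 (riemannZeta s ^ r * L s)) :=
      ((((analytic_zeta hs).continuousAt.pow r).mul (hLan s).continuousAt).tendsto).mono_left
        nhdsWithin_le_nhds
    exact tendsto_nhds_unique h2 (h3.congr' h1.symm)

end proofs

/-- **Divisibility by `ζ(s)^r` in the Selberg class.** Let `F` be an element of the Selberg class with
`log F(s) = ∑ b(n) n^{-s}`.

1. For all natural numbers `r` and all complex numbers `s₀`, `D(T) = c - m (log T - Λ_γ) + O(1/T)` for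
`γ > π/2` and `θ > max(0, 1 - Re s₀)`, where `m` is the order and `e^c` the leading coefficient of
`F / ζ^r` at `s₀`.

2. If `F` has a pole of order `r` at `s = 1`, then `Re ∑ b(p^k) p^{-k} κ_γ(k log p / T) / log T` (the sum
`D(T)` for `s₀ = 1` and `0` in place of `r`) tends to `r`.

3. If `F` has a pole of order `r` at `s = 1`, then `F = ζ^r L` with an entire function `L` if and only if
for every `s₀ ≠ 1`, `γ > π/2` and `θ > max(0, 1 - Re s₀)` there are arbitrarily large `T` with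
`Re D(T) ≤ (1/2) log T`; and this holds as soon as it holds for one `γ > π/2` and, for each `s₀ ≠ 1`, for
one `θ > max(0, 1 - Re s₀)`. -/
theorem result (a b : ℕ → ℂ) (F : ℂ → ℂ) (hF : IsSelberg a b F) :
    (∀ (r : ℕ) (s₀ : ℂ), ∃ (m : ℤ) (c : ℂ), meromorphicOrderAt (quot F r) s₀ = m ∧
      Complex.exp c = meromorphicTrailingCoeffAt (quot F r) s₀ ∧
      ∀ γ θ : ℝ, Real.pi / 2 < γ → 1 - s₀.re < θ → 0 < θ →
        ∃ B T₀ : ℝ, ∀ T : ℝ, T₀ ≤ T →
          ‖diffSum b r s₀ γ θ T - (c - m * (Real.log T - lam γ))‖ ≤ B / T) ∧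
    ∀ r : ℕ, meromorphicOrderAt F 1 = ((-(r : ℤ) : ℤ) : WithTop ℤ) →
      (∀ γ θ : ℝ, Real.pi / 2 < γ → 0 < θ →
        Tendsto (fun T : ℝ => (diffSum b 0 1 γ θ T).re / Real.log T) atTop (𝓝 (r : ℝ))) ∧
      (IsDivisible F r ↔ ∀ s₀ : ℂ, s₀ ≠ 1 → ∀ γ θ : ℝ, Real.pi / 2 < γ → 1 - s₀.re < θ → 0 < θ →
        ∀ T₀ : ℝ, ∃ T : ℝ, T₀ ≤ T ∧ (diffSum b r s₀ γ θ T).re ≤ 1 / 2 * Real.log T) ∧
      ∀ (γ : ℝ) (θ : ℂ → ℝ), Real.pi / 2 < γ → (∀ s₀, 1 - s₀.re < θ s₀ ∧ 0 < θ s₀) →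
        (IsDivisible F r ↔ ∀ s₀ : ℂ, s₀ ≠ 1 → ∀ T₀ : ℝ, ∃ T : ℝ, T₀ ≤ T ∧
          (diffSum b r s₀ γ (θ s₀) T).re ≤ 1 / 2 * Real.log T) := by
  have hlim : ∀ (r : ℕ) (s₀ : ℂ) (m : ℤ), meromorphicOrderAt (quot F r) s₀ = m →
      ∀ γ θ : ℝ, Real.pi / 2 < γ → 1 - s₀.re < θ → 0 < θ →
      Tendsto (fun T : ℝ => (diffSum b r s₀ γ θ T).re / Real.log T ^ 1) atTop
        (𝓝 ((-m : ℤ) : ℝ)) := by
    intro r s₀ m hm γ θ hγ hθ hθ0
    obtain ⟨m', c, hm', -, hlaw⟩ := law_of hF r s₀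
    have he : m = m' := by
      rw [hm] at hm'
      exact_mod_cast hm'
    subst he
    obtain ⟨B, T₀, -, -, hT⟩ := hlaw γ θ hγ hθ hθ0
    have h1 := (Complex.continuous_re.tendsto _).comp (Pool.Agent.R409.RH.tend_div hT)
    have h2 : (-(m : ℂ)).re = ((-m : ℤ) : ℝ) := by
      push_cast
      simp
    rw [h2] at h1
    refine h1.congr fun T => ?_
    simp only [Function.comp_apply, pow_one]
    rw [Complex.div_ofReal_re]
  have hiff : ∀ (r : ℕ) (s₀ : ℂ) (γ θ : ℝ), Real.pi / 2 < γ → 1 - s₀.re < θ → 0 < θ →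
      ((∀ T₀ : ℝ, ∃ T : ℝ, T₀ ≤ T ∧ (diffSum b r s₀ γ θ T).re ≤ 1 / 2 * Real.log T) ↔
        0 ≤ meromorphicOrderAt (quot F r) s₀) := by
    intro r s₀ γ θ hγ hθ hθ0
    obtain ⟨m, c, hm, -, -⟩ := law_of hF r s₀
    have h1 := Pool.Agent.R409.RH.thr_iff (hlim r s₀ m hm γ θ hγ hθ hθ0) (a := 1 / 2) (b := 0)
      (by norm_num)
    simp only [pow_one] at h1
    rw [h1, hm]
    have h2 : (0 : WithTop ℤ) ≤ (m : WithTop ℤ) ↔ 0 ≤ m := by
      have : (0 : WithTop ℤ) = ((0 : ℤ) : WithTop ℤ) := rfl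
      rw [this, WithTop.coe_le_coe]
    rw [h2]
    omega
  refine ⟨fun r s₀ => ?_, fun r hr => ⟨fun γ θ hγ hθ => ?_, ?_, fun γ θ hγ hθ => ?_⟩⟩
  · obtain ⟨m, c, hm, hc, hlaw⟩ := law_of hF r s₀
    refine ⟨m, c, hm, hc, fun γ θ hγ hθ hθ0 => ?_⟩
    obtain ⟨B, T₀, -, -, hT⟩ := hlaw γ θ hγ hθ hθ0
    exact ⟨B, T₀, hT⟩
  · have h1 : quot F 0 = F := by
      funext s
      unfold quot
      simp
    have h2 := hlim 0 1 (-(r : ℤ)) (by rw [h1]; exact hr) γ θ hγ (by simpa using hθ) hθ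
    simp only [pow_one, neg_neg] at h2
    exact_mod_cast h2
  · rw [divisible_iff hF hr]
    refine ⟨fun h s₀ hs₀ γ θ hγ hθ hθ0 => (hiff r s₀ γ θ hγ hθ hθ0).2 (h s₀ hs₀),
      fun h s₀ hs₀ => ?_⟩
    set θ₀ : ℝ := max 1 (2 - s₀.re) with hθ₀
    have hθ1 : 0 < θ₀ := lt_of_lt_of_le one_pos (le_max_left _ _)
    have hθ2 : 1 - s₀.re < θ₀ := lt_of_lt_of_le (by linarith) (le_max_right _ _)
    have hpi : Real.pi / 2 < Real.pi := by linarith [Real.pi_pos]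
    exact (hiff r s₀ Real.pi θ₀ hpi hθ2 hθ1).1 (h s₀ hs₀ _ _ hpi hθ2 hθ1)
  · rw [divisible_iff hF hr]
    refine forall_congr' fun s₀ => forall_congr' fun _ => ?_
    exact (hiff r s₀ γ (θ s₀) hγ (hθ s₀).1 (hθ s₀).2).symm

end Pool.Agent.Results.MP_995735_nt.PrimePowerCriterion
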